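import Pool.Agent.helper64.NQ.Spec

/-!
# Row TWC of project nq (MP_baa4d7_al)
-/

set_option autoImplicit false

namespace Pool.Agent.NQ

open Pool.Agent.helper58.DC Pool.Agent.DI Pool.Agent.DR

/-- A subgroup of an abelian group generated by two elements is generated by two elements. -/
theorem TWC_two {Q : Type} [CommGroup Q] (s t : Q) (h : ∀ x : Q, ∃ i j : ℤ, x = s ^ i * t ^ j)
    (K : Subgroup Q) : ∃ u ∈ K, ∃ v ∈ K, ∀ x ∈ K, ∃ i j : ℤ, x = u ^ i * v ^ j := by
  let L₁ : AddSubgroup ℤ :=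
    { carrier := {i | ∃ j : ℤ, s ^ i * t ^ j ∈ K}
      zero_mem' := ⟨0, by rw [zpow_zero, zpow_zero, one_mul]; exact K.one_mem⟩
      add_mem' := by
        rintro a b ⟨j, hj⟩ ⟨l, hl⟩
        refine ⟨j + l, ?_⟩
        have := K.mul_mem hj hl
        rw [zpow_add, zpow_add]
        rwa [mul_mul_mul_comm] at this
      neg_mem' := by
        rintro a ⟨j, hj⟩
        refine ⟨-j, ?_⟩
        have := K.inv_mem hj
        rw [zpow_neg, zpow_neg]
        rwa [mul_inv] at this }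
  let L₂ : AddSubgroup ℤ :=
    { carrier := {j | t ^ j ∈ K}
      zero_mem' := by
        show t ^ (0 : ℤ) ∈ K
        rw [zpow_zero]; exact K.one_mem
      add_mem' := by
        intro a b ha hb
        show t ^ (a + b) ∈ K
        rw [zpow_add]
        exact K.mul_mem ha hb
      neg_mem' := by
        intro a ha
        show t ^ (-a) ∈ K
        rw [zpow_neg]
        exact K.inv_mem ha }
  obtain ⟨a, ha⟩ := Int.subgroup_cyclic L₁
  obtain ⟨c, hc⟩ := Int.subgroup_cyclic L₂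
  have ha1 : a ∈ L₁ := by
    rw [ha]
    exact AddSubgroup.subset_closure (Set.mem_singleton a)
  have hc1 : c ∈ L₂ := by
    rw [hc]
    exact AddSubgroup.subset_closure (Set.mem_singleton c)
  obtain ⟨b, hb⟩ := ha1
  refine ⟨s ^ a * t ^ b, hb, t ^ c, hc1, fun x hx => ?_⟩
  obtain ⟨i, j, hx2⟩ := h x
  have hi : i ∈ L₁ := ⟨j, by rw [← hx2]; exact hx⟩
  rw [ha, AddSubgroup.mem_closure_singleton] at hi
  obtain ⟨k, hk⟩ := hi
  have hk' : i = a * k := by rw [← hk, smul_eq_mul, mul_comm]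
  have e1 : x = (s ^ a * t ^ b) ^ k * t ^ (j - b * k) := by
    rw [hx2, hk', mul_zpow, ← zpow_mul, ← zpow_mul, mul_assoc, ← zpow_add]
    congr 2
    ring
  have hj : (j - b * k) ∈ L₂ := by
    show t ^ (j - b * k) ∈ K
    have : t ^ (j - b * k) = ((s ^ a * t ^ b) ^ k)⁻¹ * x := by
      rw [e1, inv_mul_cancel_left]
    rw [this]
    exact K.mul_mem (K.inv_mem (K.zpow_mem hb k)) hx
  rw [hc, AddSubgroup.mem_closure_singleton] at hj
  obtain ⟨l, hl⟩ := hj
  refine ⟨k, l, ?_⟩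
  rw [e1, ← zpow_mul, ← hl, smul_eq_mul, mul_comm c l]

theorem TWC_sub2 {A : Type} [Group A] {P : Subgroup A} (hP : P.Normal)
    (hcom : ∀ x y : A, x * y * x⁻¹ * y⁻¹ ∈ P) {s t : A} (hst : ∀ x : A, ∃ i j : ℤ, s ^ i * t ^ j * x ∈ P)
    (H : Subgroup A) : ∃ u ∈ H, ∃ v ∈ H, ∀ x ∈ H, ∃ i j : ℤ, u ^ i * v ^ j * x ∈ P := by
  letI : CommGroup (A ⧸ P) :=
    { (inferInstance : Group (A ⧸ P)) with
      mul_comm := by
        intro a b
        obtain ⟨x, rfl⟩ := QuotientGroup.mk_surjective a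
        obtain ⟨y, rfl⟩ := QuotientGroup.mk_surjective b
        rw [← QuotientGroup.mk_mul, ← QuotientGroup.mk_mul, eq_comm, QuotientGroup.eq]
        have h := hcom x⁻¹ y⁻¹
        have e : (y * x)⁻¹ * (x * y) = x⁻¹ * y⁻¹ * x⁻¹⁻¹ * y⁻¹⁻¹ := by
          rw [mul_inv_rev, inv_inv, inv_inv, mul_assoc, mul_assoc, mul_assoc]
        rw [e]
        exact h }
  let q : A →* A ⧸ P := QuotientGroup.mk' P
  have hq : Function.Surjective q := QuotientGroup.mk'_surjective P
  have hgen : ∀ x : A ⧸ P, ∃ i j : ℤ, x = q s ^ i * q t ^ j := by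
    intro x
    obtain ⟨y, rfl⟩ := hq x
    obtain ⟨i, j, hij⟩ := hst y⁻¹
    refine ⟨i, j, ?_⟩
    have h1 : q (s ^ i * t ^ j * y⁻¹) = 1 := (QuotientGroup.eq_one_iff _).2 hij
    rw [map_mul, map_mul, map_zpow, map_zpow, map_inv, mul_inv_eq_one] at h1
    exact h1.symm
  obtain ⟨u, hu, v, hv, huv⟩ := TWC_two (q s) (q t) hgen (H.map q)
  obtain ⟨u', hu', rfl⟩ := hu
  obtain ⟨v', hv', rfl⟩ := hv
  refine ⟨u', hu', v', hv', fun x hx => ?_⟩
  obtain ⟨i, j, hij⟩ := huv (q x⁻¹) ⟨x⁻¹, H.inv_mem hx, rfl⟩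
  refine ⟨i, j, ?_⟩
  have h1 : q (u' ^ i * v' ^ j * x) = 1 := by
    rw [map_mul, map_mul, map_zpow, map_zpow, ← hij, ← map_mul, inv_mul_cancel, map_one]
  exact (QuotientGroup.eq_one_iff _).1 h1

theorem TWC : TWC_stmt := by
  intro p _ ρ
  refine ⟨?_, ?_⟩
  · rintro A _ H ⟨hfin, P, hP, ⟨hn, hcom, hidx, s, t, hst⟩, hsyl⟩
    haveI := hfin
    haveI := hn
    refine ⟨inferInstance, P.subgroupOf H, hP.comap_subtype, ⟨inferInstance, ?_, ?_, ?_⟩, ?_⟩
    · intro x y
      rw [Subgroup.mem_subgroupOf]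
      exact hcom x y
    · intro hdvd
      exact hidx (hdvd.trans (Subgroup.relIndex_dvd_index_of_normal P H))
    · obtain ⟨u, hu, v, hv, huv⟩ := TWC_sub2 hn hcom hst H
      refine ⟨⟨u, hu⟩, ⟨v, hv⟩, fun x => ?_⟩
      obtain ⟨i, j, hij⟩ := huv x x.2
      refine ⟨i, j, ?_⟩
      rw [Subgroup.mem_subgroupOf]
      push_cast
      exact hij
    · intro r hr hrp hρ R
      have h1 : IsPGroup r ((R : Subgroup H).map H.subtype) := R.2.map H.subtype
      obtain ⟨S, hS⟩ := h1.exists_le_sylow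
      haveI := hsyl r hr hrp hρ S
      let g : R →* S :=
        { toFun := fun x => ⟨((x : H) : A), hS ⟨(x : H), x.2, rfl⟩⟩
          map_one' := rfl
          map_mul' := fun _ _ => rfl }
      refine isCyclic_of_injective g ?_
      intro x y hxy
      apply Subtype.ext
      apply Subtype.ext
      exact congrArg (fun z : S => (z : A)) hxy
  · rintro E F _ _ f hf ⟨hfin, P, hP, ⟨hn, hcom, hidx, s, t, hst⟩, hsyl⟩
    haveI := hfin
    haveI := hn
    haveI : Finite F := Finite.of_surjective f hf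
    refine ⟨inferInstance, P.map f, hP.map f, ⟨hn.map f hf, ?_, ?_, ?_⟩, ?_⟩
    · intro x y
      obtain ⟨x, rfl⟩ := hf x
      obtain ⟨y, rfl⟩ := hf y
      exact ⟨x * y * x⁻¹ * y⁻¹, hcom x y, by simp⟩
    · intro hdvd
      exact hidx (hdvd.trans (Subgroup.index_map_dvd P hf))
    · refine ⟨f s, f t, fun x => ?_⟩
      obtain ⟨x, rfl⟩ := hf x
      obtain ⟨i, j, hij⟩ := hst x
      exact ⟨i, j, _, hij, by simp⟩
    · intro r hr hrp hρ R
      haveI : Fact r.Prime := ⟨hr⟩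
      obtain ⟨S, rfl⟩ := Sylow.mapSurjective_surjective hf r R
      haveI := hsyl r hr hrp hρ S
      have e : ((Sylow.mapSurjective hf S : Sylow r F) : Subgroup F) = (S : Subgroup E).map f :=
        Sylow.coe_mapSurjective hf S
      let g : S →* (Sylow.mapSurjective hf S : Sylow r F) :=
        { toFun := fun x => ⟨f (x : E), by
            have : f (x : E) ∈ (S : Subgroup E).map f := ⟨x, x.2, rfl⟩
            rw [← e] at this
            exact this⟩
          map_one' := Subtype.ext (show f (1 : E) = 1 from map_one f)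
          map_mul' := fun x y => Subtype.ext
            (show f ((x : E) * (y : E)) = f (x : E) * f (y : E) from map_mul f (x : E) (y : E)) }
      refine isCyclic_of_surjective g ?_
      rintro ⟨y, hy⟩
      have hy' : y ∈ (S : Subgroup E).map f := by
        rw [← e]
        exact hy
      obtain ⟨x, hx, rfl⟩ := hy'
      exact ⟨⟨x, hx⟩, rfl⟩

end Pool.Agent.NQ
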